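import Pool.Agent.H379.GS.Ring

/-!
# From a counterexample to the first Tachikawa conjecture to the frozen statement S02360

Every finitely generated injective `A`-module is a direct summand of a finite power of `D A`.
-/

set_option autoImplicit false

open CategoryTheory CategoryTheory.Abelian
open Pool.Agent.H379.GS

namespace Pool.Agent.H707.NK

/-- If the identity of `I` factors through a finite direct sum of copies of `D`, then `Ext^i(I, B)`
vanishes when `Ext^i(D, B)` does. -/
theorem ext_of_factor {C : Type*} [Category C] [Abelian C] [HasExt.{0} C] {I D B : C} {n : ℕ}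
    (f : Fin n → (I ⟶ D)) (g : Fin n → (D ⟶ I)) (h : ∑ j, f j ≫ g j = 𝟙 I) {i : ℕ}
    (hD : Subsingleton (Ext D B i)) : Subsingleton (Ext I B i) := by
  refine ⟨fun α β => ?_⟩
  have key : ∀ γ : Ext I B i, γ = 0 := by
    intro γ
    have h1 : (Ext.mk₀ (∑ j, f j ≫ g j)).comp γ (zero_add i) = γ := by
      rw [h, Ext.mk₀_id_comp]
    have h2 : ∀ s : Finset (Fin n),
        (Ext.mk₀ (∑ j ∈ s, f j ≫ g j)).comp γ (zero_add i) = 0 := by
      intro s
      classical
      induction s using Finset.induction_on with
      | empty => rw [Finset.sum_empty, Ext.mk₀_zero, Ext.zero_comp]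
      | insert a s ha ih =>
        rw [Finset.sum_insert ha, Ext.mk₀_add, Ext.add_comp, ih, add_zero,
          ← Ext.mk₀_comp_mk₀_assoc]
        rw [Subsingleton.elim ((Ext.mk₀ (g a)).comp γ (zero_add i)) 0, Ext.comp_zero]
    rw [← h1]
    exact h2 Finset.univ
  rw [key α, key β]

/-- A finitely generated injective module over a finite-dimensional algebra is a direct summand of
a finite power of the dual of the algebra. -/
theorem factor_dual (K : Type) [Field K] (A : Type) [Ring A] [Algebra K A] [Module.Finite K A]
    (I : Type) [AddCommGroup I] [Module A I] [Module.Finite A I] [Module.Injective A I] :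
    ∃ (n : ℕ) (f : Fin n → (I →ₗ[A] DA K A)) (g : Fin n → (DA K A →ₗ[A] I)),
      ∀ x, ∑ j, g j (f j x) = x := by
  classical
  let _ : Module K I := Module.compHom I (algebraMap K A)
  have : IsScalarTower K A I := ⟨fun c a x => by
    rw [Algebra.smul_def, mul_smul]
    rfl⟩
  have : Module.Finite K I := Module.Finite.trans A I
  set b := Module.finBasis K I with hb
  set n := Module.finrank K I
  let f : Fin n → (I →ₗ[A] DA K A) := fun j =>
    { toFun := fun x => DA.mk
        { toFun := fun a => b.coord j (a • x)
          map_add' := fun a a' => by rw [add_smul, map_add]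
          map_smul' := fun c a => by
            rw [smul_assoc, map_smul]
            rfl }
      map_add' := fun x y => DA.ext fun a => by
        change b.coord j (a • (x + y)) = b.coord j (a • x) + b.coord j (a • y)
        rw [smul_add, map_add]
      map_smul' := fun a' x => DA.ext fun a => by
        change b.coord j (a • (a' • x)) = b.coord j ((a * a') • x)
        rw [mul_smul] }
  have hf : ∀ j x, DA.ev (f j x) 1 = b.coord j x := fun j x => by
    change b.coord j ((1 : A) • x) = b.coord j x
    rw [one_smul]
  have hinj : Function.Injective (LinearMap.pi f) := by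
    intro x y hxy
    refine b.ext_elem fun j => ?_
    have h1 : f j x = f j y := congrFun hxy j
    have h2 := hf j x
    rw [h1, hf j y] at h2
    exact h2.symm
  obtain ⟨r, hr⟩ := Module.Injective.out (LinearMap.pi f) hinj (LinearMap.id : I →ₗ[A] I)
  refine ⟨n, f, fun j => r ∘ₗ LinearMap.single A (fun _ => DA K A) j, fun x => ?_⟩
  have h1 : ∑ j, LinearMap.single A (fun _ : Fin n => DA K A) j (f j x) = LinearMap.pi f x := by
    refine funext fun k => ?_
    rw [Finset.sum_apply]
    rw [Finset.sum_eq_single k]
    · simp
    · intro j _ hj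
      simp [hj.symm]
    · intro hk
      exact absurd (Finset.mem_univ k) hk
  have h2 := hr x
  rw [← h1, map_sum] at h2
  exact h2

/-- A finite-dimensional algebra `A₀` which is not injective over itself and satisfies
`Ext^i(D A₀, A₀) = 0` for all `i ≥ 1` gives the frozen statement S02360. -/
theorem s02360_core (K : Type) [Field K] (A₀ : Type) [Ring A₀] [Algebra K A₀]
    (hfin : Module.Finite K A₀) (hni : ¬ Module.Injective A₀ A₀)
    (hext : ∀ i : ℕ, 1 ≤ i →
      Subsingleton (Ext (ModuleCat.of A₀ (DA K A₀)) (ModuleCat.of A₀ A₀) i)) :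
    ¬ (∀ (R A : Type) [CommRing R] [IsArtinianRing R] [Ring A] [Algebra R A] [Module.Finite R A]
      [CategoryTheory.HasExt.{0} (ModuleCat.{0} A)],
      (∀ (I : ModuleCat.{0} A), Module.Finite A I → Module.Injective A I →
        ∀ i : ℕ, 0 < i → Subsingleton (CategoryTheory.Abelian.Ext I (ModuleCat.of A A) i)) →
      Module.Injective A A) := by
  intro H
  have : HasExt.{0} (ModuleCat.{0} A₀) := inferInstance
  refine hni (H K A₀ ?_)
  intro I hI1 hI2 i hi
  obtain ⟨n, f, g, hfg⟩ := factor_dual K A₀ I
  refine ext_of_factor (D := ModuleCat.of A₀ (DA K A₀)) (fun j => ModuleCat.ofHom (f j))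
    (fun j => ModuleCat.ofHom (g j)) ?_ (hext i hi)
  ext x
  have h1 := hfg x
  simp [ModuleCat.hom_sum, LinearMap.sum_apply]
  exact h1

end Pool.Agent.H707.NK
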